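import Pool.Agent.N783.CF.Stm

set_option autoImplicit false

/-! # The discriminant as a function of the constant coefficient (project CF, leaf RES) -/

namespace Pool.Agent.N327.CF

open Polynomial

theorem exists_fn : ∀ (n : ℕ) (l : List ℂ), l.length = n → ∃ ρ : Fin n → ℂ, List.ofFn ρ = l := by
  rintro n l rfl
  exact ⟨l.get, List.ofFn_get l⟩

theorem t_RES : Pool.Agent.N783.CF.S_RES := by
  intro g f _ hf hd
  have hf1 : f.coeff (2 * g + 1) = 1 := by
    rw [← hd]
    exact hf
  have hGd : (derivative f).natDegree = 2 * g := by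
    refine le_antisymm ?_ (le_natDegree_of_ne_zero ?_)
    · refine (natDegree_derivative_le f).trans ?_
      rw [hd, Nat.add_sub_cancel]
    · rw [coeff_derivative, hf1, one_mul]
      exact_mod_cast Nat.succ_ne_zero (2 * g)
  have hGl : (derivative f).leadingCoeff = 2 * g + 1 := by
    rw [leadingCoeff, hGd, coeff_derivative, hf1]
    push_cast
    ring
  have hs : (derivative f).Splits := IsAlgClosed.splits _
  have hc : (derivative f).roots.card = 2 * g := by
    rw [← hs.natDegree_eq_card_roots, hGd]
  obtain ⟨l, hl⟩ := Quot.exists_rep (derivative f).roots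
  have hl' : (l : Multiset ℂ) = (derivative f).roots := hl
  have hlen : l.length = 2 * g := by
    rw [← hc, ← hl', Multiset.coe_card]
  obtain ⟨ρ, hρ⟩ := exists_fn _ l hlen
  refine ⟨fun j => -f.eval (ρ j), fun a => ?_⟩
  have h1 : derivative (f + C a) = derivative f := by
    rw [derivative_add, derivative_C, add_zero]
  rw [h1, resultant_comm]
  have hn : (f + C a).natDegree ≤ 2 * g + 1 := by
    rw [natDegree_add_C, hd]
  have h2 := resultant_eq_prod_eval (derivative f) (f + C a) (2 * g + 1) hn hs
  rw [hGd] at h2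
  have h3 : ((derivative f).roots.map fun x => (f + C a).eval x).prod =
      ∏ j, (a - (-f.eval (ρ j))) := by
    rw [← hl', ← hρ, Multiset.map_coe, Multiset.prod_coe, List.map_ofFn, List.prod_ofFn]
    refine Finset.prod_congr rfl fun j _ => ?_
    rw [Function.comp_apply, eval_add, eval_C]
    ring
  have h5 : (2 * (g : ℂ) + 1) = ((2 * g + 1 : ℕ) : ℂ) := by push_cast; ring
  have h4 : 1 ≤ ‖(2 * (g : ℂ) + 1)‖ ^ (2 * g + 1) := by
    refine one_le_pow₀ ?_
    rw [h5, Complex.norm_natCast]
    exact_mod_cast Nat.le_add_left 1 (2 * g)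
  rw [h2, h3, hGl, norm_mul, norm_mul, norm_pow, norm_pow, norm_neg, norm_one, one_pow, one_mul,
    norm_prod]
  exact le_mul_of_one_le_left (Finset.prod_nonneg fun _ _ => norm_nonneg _) h4

end Pool.Agent.N327.CF
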